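import Pool.Agent.Lib.MP_edb5be_nt.EX.Iface

/-!
Project EX (MP_edb5be_nt): module SUMP (sums of periodic functions, splitting of the digits).
-/

set_option autoImplicit false

namespace Pool.Agent.Lib.MP_edb5be_nt.EX.H30

open Finset

lemma per_emod (q : ℕ) (F : ℤ → ℝ) (hF : ∀ x, F (x + q) = F x) (z : ℤ) :
    F (z % (q : ℤ)) = F z := by
  have hper : Function.Periodic F (q : ℤ) := hF
  have h := hper.int_mul (z / (q : ℤ)) (z % (q : ℤ))
  have h2 : z % (q : ℤ) + z / (q : ℤ) * (q : ℤ) = z := Int.emod_add_ediv_mul z (q : ℤ)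
  have h3 : z % (q : ℤ) + ((z / (q : ℤ) : ℤ) : ℤ) * (q : ℤ) = z := h2
  simp only [Int.cast_id] at h
  rw [h2] at h
  exact h.symm

lemma sum_affine (q : ℕ) (F : ℤ → ℝ) (τ e : ℤ) (hq : 0 < q) (hF : ∀ x, F (x + q) = F x)
    (he : IsCoprime e (q : ℤ)) :
    ∑ x ∈ range q, F (τ + e * x) = ∑ x ∈ range q, F x := by
  have hq' : (0 : ℤ) < (q : ℤ) := by exact_mod_cast hq
  have hnn : ∀ z : ℤ, 0 ≤ z % (q : ℤ) := fun z => Int.emod_nonneg z hq'.ne'
  have hlt : ∀ z : ℤ, z % (q : ℤ) < (q : ℤ) := fun z => Int.emod_lt_of_pos z hq'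
  have hmaps : ∀ a ∈ range q, ((τ + e * (a : ℤ)) % (q : ℤ)).toNat ∈ range q := by
    intro a _
    rw [Finset.mem_range]
    have h1 := hnn (τ + e * (a : ℤ))
    have h2 := hlt (τ + e * (a : ℤ))
    omega
  have hinj : Set.InjOn (fun a : ℕ => ((τ + e * (a : ℤ)) % (q : ℤ)).toNat)
      (range q : Finset ℕ) := by
    intro a ha b hb hab
    have ha' : a < q := by simpa using ha
    have hb' : b < q := by simpa using hb
    have h1 := hnn (τ + e * (a : ℤ))
    have h2 := hnn (τ + e * (b : ℤ))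
    have h3 : (τ + e * (a : ℤ)) % (q : ℤ) = (τ + e * (b : ℤ)) % (q : ℤ) := by
      have hab' : ((τ + e * (a : ℤ)) % (q : ℤ)).toNat =
        ((τ + e * (b : ℤ)) % (q : ℤ)).toNat := hab
      omega
    have h4 : (q : ℤ) ∣ (τ + e * (b : ℤ)) - (τ + e * (a : ℤ)) :=
      Int.ModEq.dvd h3
    have h5 : (q : ℤ) ∣ ((b : ℤ) - a) * e := by
      have : (τ + e * (b : ℤ)) - (τ + e * (a : ℤ)) = ((b : ℤ) - a) * e := by ring
      rwa [this] at h4
    have h6 : (q : ℤ) ∣ (b : ℤ) - a := he.symm.dvd_of_dvd_mul_right h5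
    have h7 : (b : ℤ) - a = 0 := by
      apply Int.eq_zero_of_abs_lt_dvd h6
      rw [abs_lt]
      constructor <;> omega
    omega
  have hsurj : Set.SurjOn (fun a : ℕ => ((τ + e * (a : ℤ)) % (q : ℤ)).toNat)
      (range q : Finset ℕ) (range q : Finset ℕ) :=
    Finset.surjOn_of_injOn_of_card_le _ hmaps hinj le_rfl
  refine Finset.sum_nbij (fun a : ℕ => ((τ + e * (a : ℤ)) % (q : ℤ)).toNat) hmaps hinj hsurj ?_
  intro a _
  have h1 := hnn (τ + e * (a : ℤ))
  show F (τ + e * (a : ℤ)) = F ((((τ + e * (a : ℤ)) % (q : ℤ)).toNat : ℕ) : ℤ)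
  rw [Int.toNat_of_nonneg h1, per_emod q F hF]

lemma sum_split (a m : ℕ) (F : ℤ → ℝ) :
    ∑ t ∈ range (a * m), F t = ∑ y ∈ range a, ∑ x ∈ range m, F ((y : ℤ) + (a : ℤ) * x) := by
  induction m with
  | zero => simp
  | succ m ih =>
    rw [Nat.mul_succ, Finset.sum_range_add, ih]
    simp only [Finset.sum_range_succ, Finset.sum_add_distrib]
    congr 1
    refine Finset.sum_congr rfl fun y _ => ?_
    congr 1
    push_cast
    ring

theorem sumP : SumPStatement := by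
  refine ⟨fun q F τ e hq hF he => sum_affine q F τ e hq hF he, fun K n j F _ => ?_⟩
  rw [pow_add, sum_split]
  push_cast
  rfl

end Pool.Agent.Lib.MP_edb5be_nt.EX.H30
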